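import Pool.Agent.BEL.StmtsP
import Pool.Agent.Helper51_BE01.Eib
import Pool.Agent.Helper94_BE01.Dns

set_option autoImplicit false

namespace Pool.Agent.BEL.H70

open Set Filter Topology MeasureTheory
open scoped InnerProductSpace ENNReal
open Pool.Agent.BE01

variable {d : ℕ}

/-- The class of the gradient of a test function. -/
theorem grad_mem {Ω : Set (En d)} (ψ : En d → ℝ) (hψ : Tst Ω ψ) :
    ∃ G : VV Ω, (G : Lp (En d) 2 (mu Ω)) =ᵐ[mu Ω] gradient ψ := by
  have hc : Continuous (gradient ψ) := by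
    have h1 : Continuous (fderiv ℝ ψ) := hψ.1.continuous_fderiv (by simp)
    exact (InnerProductSpace.toDual ℝ (En d)).symm.continuous.comp h1
  have hs : HasCompactSupport (gradient ψ) := by
    refine hψ.2.1.mono' ?_
    intro x hx
    rw [Function.mem_support] at hx
    refine support_fderiv_subset ℝ ?_
    rw [Function.mem_support]
    intro h
    apply hx
    unfold gradient
    rw [h, map_zero]
  have hm : MemLp (gradient ψ) 2 (mu Ω) := (hc.memLp_of_hasCompactSupport hs).restrict Ω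
  refine ⟨⟨hm.toLp _, ?_⟩, hm.coeFn_toLp⟩
  exact Submodule.le_topologicalClosure _ (Submodule.subset_span ⟨ψ, hψ, hm.coeFn_toLp⟩)

theorem test_range {Ω : Set (En d)} {ι : VV Ω →L[ℝ] Lp ℝ 2 (mu Ω)} (hι : Emb2 Ω ι)
    (f : Lp ℝ 2 (mu Ω)) (ψ : En d → ℝ) (hψ : Tst Ω ψ) (hf : f =ᵐ[mu Ω] ψ) : ∃ G : VV Ω, ι G = f := by
  obtain ⟨G, hG⟩ := grad_mem ψ hψ
  refine ⟨G, Lp.ext ?_⟩
  exact (hι ψ hψ G hG).trans hf.symm

theorem ortho_range {Ω : Set (En d)} {ι : VV Ω →L[ℝ] Lp ℝ 2 (mu Ω)} (hΩ : Dom Ω) (hι : Emb2 Ω ι)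
    (h : Lp ℝ 2 (mu Ω)) (hh : ∀ G : VV Ω, ⟪h, ι G⟫_ℝ = 0) : h = 0 := by
  have h1 : ∀ f ∈ closure {f : Lp ℝ 2 (mu Ω) | ∃ ψ, Tst Ω ψ ∧ f =ᵐ[mu Ω] ψ}, ⟪h, f⟫_ℝ = 0 := by
    have hcl : IsClosed {f : Lp ℝ 2 (mu Ω) | ⟪h, f⟫_ℝ = 0} :=
      isClosed_eq (continuous_const.inner continuous_id) continuous_const
    refine closure_minimal ?_ hcl
    rintro f ⟨ψ, hψ, hf⟩
    obtain ⟨G, rfl⟩ := test_range hι f ψ hψ hf
    exact hh G
  have h2 : h ∈ closure {f : Lp ℝ 2 (mu Ω) | ∃ ψ, Tst Ω ψ ∧ f =ᵐ[mu Ω] ψ} := by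
    rw [Pool.Agent.BE01.H94.dns d Ω hΩ]
    trivial
  exact inner_self_eq_zero.1 (h1 h h2)

/-- Finiteness of the large eigenvalues of a compact operator. -/
theorem fin_large {H κ : Type} [NormedAddCommGroup H] [InnerProductSpace ℝ H]
    (S : H →L[ℝ] H) (hS : IsCompactOperator S) (b : κ → H) (hb : Orthonormal ℝ b) (s : κ → ℝ)
    (hs : ∀ k, 0 < s k) (hSb : ∀ k, S (b k) = s k • b k) (δ : ℝ) (hδ : 0 < δ) :
    {k | δ ≤ s k}.Finite := by
  by_contra hinf
  have hinf' : {k | δ ≤ s k}.Infinite := hinf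
  let f := hinf'.natEmbedding
  have hcomp := hS.isCompact_closure_image_closedBall 1
  have hmem : ∀ n, S (b (f n)) ∈ closure (S '' Metric.closedBall 0 1) := by
    intro n
    refine subset_closure ⟨b (f n), ?_, rfl⟩
    rw [mem_closedBall_zero_iff, hb.1]
  obtain ⟨a, -, φ, hφ, hlim⟩ := hcomp.tendsto_subseq hmem
  have hC := hlim.cauchySeq
  rw [Metric.cauchySeq_iff] at hC
  obtain ⟨N, hN⟩ := hC δ hδ
  have h1 := hN N le_rfl (N + 1) (by omega)
  have hne : (f (φ N) : κ) ≠ f (φ (N + 1)) := by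
    intro h
    have := f.injective (Subtype.ext h)
    have h2 := hφ (Nat.lt_succ_self N)
    rw [this] at h2
    exact lt_irrefl _ h2
  rw [dist_eq_norm] at h1
  simp only [Function.comp] at h1
  have h3 : ‖S (b (f (φ N))) - S (b (f (φ (N + 1))))‖ ^ 2 =
      s (f (φ N)) ^ 2 + s (f (φ (N + 1))) ^ 2 := by
    rw [@norm_sub_sq_real, hSb, hSb, norm_smul, norm_smul, hb.1, hb.1, inner_smul_left,
      inner_smul_right, hb.2 hne, Real.norm_of_nonneg (hs _).le, Real.norm_of_nonneg (hs _).le]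
    simp
  have h4 : δ ≤ s (f (φ N)) := (f (φ N)).2
  have h5 := hs (f (φ (N + 1)))
  have h6 : δ ^ 2 ≤ ‖S (b (f (φ N))) - S (b (f (φ (N + 1))))‖ ^ 2 := by
    rw [h3]
    nlinarith
  have h7 := abs_le_of_sq_le_sq' h6 (norm_nonneg _)
  linarith [h7.2]

theorem eig (hRlc : RlcStmt) (hClo : CloStmt) (hEnm : EnmStmt) (hBmp : BmpStmt) : EigStmt := by
  intro d Ω ι hd hΩ hι
  have hcl : IsClosed (VV Ω : Set (Lp (En d) 2 (mu Ω))) := Submodule.isClosed_topologicalClosure _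
  have : CompleteSpace (VV Ω) := hcl.completeSpace_coe
  let ι' := ContinuousLinearMap.adjoint ι
  have hadj : ∀ (h : Lp ℝ 2 (mu Ω)) (G : VV Ω), ⟪ι' h, G⟫_ℝ = ⟪h, ι G⟫_ℝ := fun h G =>
    ContinuousLinearMap.adjoint_inner_left ι G h
  have hadj' : ∀ (h : Lp ℝ 2 (mu Ω)) (G : VV Ω), ⟪G, ι' h⟫_ℝ = ⟪ι G, h⟫_ℝ := fun h G =>
    ContinuousLinearMap.adjoint_inner_right ι G h
  let S := ι.comp ι'
  have hSap : ∀ h, S h = ι (ι' h) := fun h => rfl
  have hSc : IsCompactOperator S := (hRlc d Ω ι hd hΩ hι).comp_clm ι'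
  have hSs : ∀ h k, ⟪S h, k⟫_ℝ = ⟪h, S k⟫_ℝ := by
    intro h k
    rw [hSap, hSap, ← hadj', ← hadj]
  have hSp : ∀ h, h ≠ 0 → 0 < ⟪S h, h⟫_ℝ := by
    intro h hh
    rw [hSap, ← hadj', real_inner_self_eq_norm_sq]
    have : ι' h ≠ 0 := by
      intro h0
      apply hh
      refine ortho_range hΩ hι h fun G => ?_
      rw [← hadj, h0, inner_zero_left]
    have := norm_pos_iff.2 this
    positivity
  obtain ⟨κ, b', s, hs, hSb⟩ := Pool.Agent.BE01.H51.eib _ S hSc hSs hSp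
  -- `κ` is infinite
  have hinf : Infinite κ := by
    by_contra hfin
    rw [not_infinite_iff_finite] at hfin
    have : Fintype κ := Fintype.ofFinite κ
    obtain ⟨C, -, hC⟩ := hBmp d Ω hd hΩ
    obtain ⟨ψ, h1, h2, -, h3, -⟩ := hC (Fintype.card κ + 1) (by omega)
    have hmem : ∀ i, MemLp (ψ i) 2 (mu Ω) := fun i =>
      ((h1 i).1.continuous.memLp_of_hasCompactSupport (h1 i).2.1).restrict Ω
    let v : Fin (Fintype.card κ + 1) → Lp ℝ 2 (mu Ω) := fun i => (hmem i).toLp _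
    have hv : LinearIndependent ℝ v := by
      refine linearIndependent_of_ne_zero_of_inner_eq_zero (𝕜 := ℝ) ?_ ?_
      · intro i hi
        have h4 := h3 i
        have h5 : ∫ x, ψ i x ^ 2 ∂(mu Ω) = 0 := by
          rw [← integral_zero (En d) ℝ (μ := mu Ω)]
          refine integral_congr_ae ?_
          have h6 : ψ i =ᵐ[mu Ω] (v i : Lp ℝ 2 (mu Ω)) := (hmem i).coeFn_toLp.symm
          filter_upwards [h6, Lp.coeFn_zero ℝ 2 (mu Ω)] with x hx hx'
          rw [hx, hi, hx']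
          simp
        linarith
      · intro i j hij
        rw [L2.inner_def]
        rw [← integral_zero (En d) ℝ (μ := mu Ω)]
        refine integral_congr_ae ?_
        filter_upwards [(hmem i).coeFn_toLp, (hmem j).coeFn_toLp] with x hx hx'
        change ⟪((hmem i).toLp _ : Lp ℝ 2 (mu Ω)) x, ((hmem j).toLp _ : Lp ℝ 2 (mu Ω)) x⟫_ℝ = 0
        rw [hx, hx']
        have := h2 i j hij x
        simp [mul_comm, this]
    have hfd := b'.toOrthonormalBasis.toBasis.finiteDimensional_of_finite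
    have h6 := hv.fintype_card_le_finrank
    rw [Module.finrank_eq_card_basis b'.toOrthonormalBasis.toBasis, Fintype.card_fin] at h6
    omega
  obtain ⟨σ, hanti, hlim⟩ := hEnm κ s hinf hs
    (fin_large S hSc b' b'.orthonormal s hs hSb)
  -- the basis `b`
  have hbo : Orthonormal ℝ (fun n => b' (σ n)) := b'.orthonormal.comp σ σ.injective
  have hbr : range (fun n => b' (σ n)) = range b' := by
    rw [← σ.surjective.range_comp b']
    rfl
  let b : HilbertBasis ℕ ℝ (Lp ℝ 2 (mu Ω)) := HilbertBasis.mk hbo (by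
    rw [hbr, b'.dense_span])
  have hb : ∀ n, b n = b' (σ n) := fun n => by
    change (HilbertBasis.mk hbo _) n = _
    rw [HilbertBasis.coe_mk]
  have hSbn : ∀ n, S (b n) = s (σ n) • b n := fun n => by rw [hb, hSb]
  -- the frequencies
  let om : ℕ → ℝ := fun n => (√(s (σ n)))⁻¹
  have hsq : ∀ n, 0 < √(s (σ n)) := fun n => Real.sqrt_pos.2 (hs _)
  have hom : ∀ n, 0 < om n := fun n => inv_pos.2 (hsq n)
  have hom2 : ∀ n, om n ^ 2 * s (σ n) = 1 := by
    intro n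
    change (√(s (σ n)))⁻¹ ^ 2 * s (σ n) = 1
    rw [inv_pow, Real.sq_sqrt (hs _).le, inv_mul_cancel₀ (hs _).ne']
  have hsl : ∀ (c : ℝ) (x y : VV Ω), ⟪c • x, y⟫_ℝ = c * ⟪x, y⟫_ℝ := fun c x y =>
    real_inner_smul_left x y c
  have hsr : ∀ (c : ℝ) (x y : VV Ω), ⟪x, c • y⟫_ℝ = c * ⟪x, y⟫_ℝ := fun c x y =>
    real_inner_smul_right x y c
  have heo : Orthonormal ℝ (fun n => om n • ι' (b n)) := by
    rw [orthonormal_iff_ite]
    intro n m
    rw [hsl, hsr, hadj, ← hSap, hSbn, real_inner_smul_right,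
      orthonormal_iff_ite.1 b.orthonormal n m]
    split_ifs with h
    · subst h
      have := hom2 n
      linear_combination this
    · simp
  let e : HilbertBasis ℕ ℝ (VV Ω) := HilbertBasis.mkOfOrthogonalEqBot heo (by
    rw [Submodule.eq_bot_iff]
    intro G hG
    apply hClo d Ω ι hΩ hι
    have h1 : ∀ n, ⟪b n, ι G⟫_ℝ = 0 := by
      intro n
      have h2 : ⟪om n • ι' (b n), G⟫_ℝ = 0 :=
        (Submodule.mem_orthogonal _ _).1 hG _ (Submodule.subset_span ⟨n, rfl⟩)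
      rw [hsl, hadj, mul_eq_zero] at h2
      exact h2.resolve_left (hom n).ne'
    apply b.repr.injective
    rw [map_zero]
    ext n
    rw [HilbertBasis.repr_apply_apply, h1 n]
    rfl)
  have he : ∀ n, e n = om n • ι' (b n) := fun n => by
    change (HilbertBasis.mkOfOrthogonalEqBot heo _) n = _
    rw [HilbertBasis.coe_mkOfOrthogonalEqBot]
  refine ⟨b, e, om, hom, ?_, ?_, ?_⟩
  · intro n m hnm
    have h1 : s (σ m) ≤ s (σ n) := hanti hnm
    exact inv_anti₀ (hsq m) (Real.sqrt_le_sqrt h1)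
  · have h1 : Tendsto (fun n => √(s (σ n))) atTop (𝓝[>] 0) := by
      rw [tendsto_nhdsWithin_iff]
      refine ⟨?_, Eventually.of_forall fun n => hsq n⟩
      have := hlim.sqrt
      rwa [Real.sqrt_zero] at this
    exact tendsto_inv_nhdsGT_zero.comp h1
  · intro k G
    rw [he, hsl, hadj]
    rw [← mul_assoc, inv_mul_cancel₀ (hom k).ne', one_mul]

end Pool.Agent.BEL.H70
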