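import Pool.Agent.Helper70_BEL.LON
import Pool.Agent.Helper70_BEL.EIG

set_option autoImplicit false

namespace Pool.Agent.BEL.H70

open Set Filter Topology MeasureTheory
open scoped InnerProductSpace ENNReal
open Pool.Agent.BE01

variable {d : ℕ}

section abs

variable {X : Type} [MeasurableSpace X] {μ : Measure X}

/-- The sublevel sets of the `L^p` integral are closed in `L^2`. -/
theorem lsc (p : ℝ) (hp : 0 < p) (c : ℝ≥0∞) :
    IsClosed {f : Lp ℝ 2 μ | ∫⁻ x, ENNReal.ofReal (|f x| ^ p) ∂μ ≤ c} := by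
  apply IsSeqClosed.isClosed
  intro u f hu hf
  have h1 := (tendstoInMeasure_of_tendsto_Lp hf).exists_seq_tendsto_ae
  obtain ⟨ns, -, h2⟩ := h1
  have h3 : ∀ᵐ x ∂μ, ENNReal.ofReal (|f x| ^ p) ≤
      liminf (fun i => ENNReal.ofReal (|u (ns i) x| ^ p)) atTop := by
    filter_upwards [h2] with x hx
    have h4 : Tendsto (fun i => ENNReal.ofReal (|u (ns i) x| ^ p)) atTop
        (𝓝 (ENNReal.ofReal (|f x| ^ p))) :=
      ENNReal.tendsto_ofReal ((hx.abs).rpow_const (Or.inr hp.le))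
    rw [h4.liminf_eq]
  calc ∫⁻ x, ENNReal.ofReal (|f x| ^ p) ∂μ
      ≤ ∫⁻ x, liminf (fun i => ENNReal.ofReal (|u (ns i) x| ^ p)) atTop ∂μ := lintegral_mono_ae h3
    _ ≤ liminf (fun i => ∫⁻ x, ENNReal.ofReal (|u (ns i) x| ^ p) ∂μ) atTop := by
        refine lintegral_liminf_le' fun i => ?_
        exact (((Lp.aestronglyMeasurable _).aemeasurable.abs).pow_const p).ennreal_ofReal
    _ ≤ c := by
        refine liminf_le_of_le ⟨0, by simp⟩ fun b hb => ?_
        obtain ⟨i, hi⟩ := hb.exists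
        exact hi.trans (hu (ns i))

theorem pair_bound {a al : ℝ} (ha : 0 < a) (hal : 0 < al) (z φ : X → ℝ)
    (hz : AEStronglyMeasurable z μ) (hφm : AEStronglyMeasurable φ μ) (K : ℝ) (hK : 0 ≤ K)
    (hφ : eLpNorm φ (ENNReal.ofReal (al + 2)) μ ≤ ENNReal.ofReal K)
    (hN : ∫⁻ x, ENNReal.ofReal (|z x| ^ (al + 2)) ∂μ < ⊤) :
    Integrable (fun x => gf a al (z x) * φ x) μ ∧
      |∫ x, gf a al (z x) * φ x ∂μ| ≤
        a * (1 + (∫⁻ x, ENNReal.ofReal (|z x| ^ (al + 2)) ∂μ).toReal) * K := by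
  have hp : 0 < al + 2 := by linarith
  have hq : 0 < al + 1 := by linarith
  have hconj : ((al + 2) / (al + 1)).HolderConjugate (al + 2) := by
    rw [Real.holderConjugate_iff]
    constructor
    · rw [lt_div_iff₀ hq]; linarith
    · field_simp; ring
  set N := ∫⁻ x, ENNReal.ofReal (|z x| ^ (al + 2)) ∂μ with hNdef
  have hgm : AEStronglyMeasurable (fun x => gf a al (z x)) μ := by
    unfold gf
    exact ((hz.aemeasurable.abs.pow_const al).const_mul a).mul hz.aemeasurable |>.aestronglyMeasurable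
  have h1 : ∫⁻ x, ‖gf a al (z x) * φ x‖ₑ ∂μ ≤ ENNReal.ofReal a * ((1 + N) * ENNReal.ofReal K) := by
    have h2 : ∀ x, ‖gf a al (z x) * φ x‖ₑ =
        ENNReal.ofReal a * (ENNReal.ofReal (|z x| ^ (al + 1)) * ‖φ x‖ₑ) := by
      intro x
      rw [enorm_mul, ← mul_assoc, ← ENNReal.ofReal_mul ha.le]
      congr 1
      rw [Real.enorm_eq_ofReal_abs]
      congr 1
      unfold gf
      rw [abs_mul, abs_mul, abs_of_pos ha, abs_of_nonneg (Real.rpow_nonneg (abs_nonneg _) _),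
        Real.rpow_add_one' (abs_nonneg _) hq.ne', mul_assoc]
    simp only [h2]
    rw [lintegral_const_mul' _ _ ENNReal.ofReal_ne_top]
    gcongr
    have h3 := ENNReal.lintegral_mul_le_Lp_mul_Lq μ hconj
      (f := fun x => ENNReal.ofReal (|z x| ^ (al + 1))) (g := fun x => ‖φ x‖ₑ)
      ((hz.aemeasurable.abs).pow_const _).ennreal_ofReal hφm.enorm
    refine h3.trans ?_
    have h4 : ∀ x, ENNReal.ofReal (|z x| ^ (al + 1)) ^ ((al + 2) / (al + 1)) =
        ENNReal.ofReal (|z x| ^ (al + 2)) := by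
      intro x
      rw [ENNReal.ofReal_rpow_of_nonneg (Real.rpow_nonneg (abs_nonneg _) _) (by positivity),
        ← Real.rpow_mul (abs_nonneg _)]
      congr 2
      field_simp
    simp only [h4]
    rw [← hNdef]
    have h5 : (∫⁻ x, ‖φ x‖ₑ ^ (al + 2) ∂μ) ^ (1 / (al + 2)) ≤ ENNReal.ofReal K := by
      rw [eLpNorm_eq_lintegral_rpow_enorm_toReal (by simpa using hp) ENNReal.ofReal_ne_top,
        ENNReal.toReal_ofReal hp.le] at hφ
      exact hφ
    refine mul_le_mul' ?_ h5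
    rcases le_total N 1 with h | h
    · exact (ENNReal.rpow_le_one h (by positivity)).trans le_self_add
    · have h6 : 1 / ((al + 2) / (al + 1)) ≤ 1 := by
        rw [one_div_div, div_le_one hp]
        linarith
      refine (ENNReal.rpow_le_rpow_of_exponent_le h h6).trans ?_
      rw [ENNReal.rpow_one]
      exact le_add_self
  have hfin : ENNReal.ofReal a * ((1 + N) * ENNReal.ofReal K) < ⊤ :=
    ENNReal.mul_lt_top ENNReal.ofReal_lt_top (ENNReal.mul_lt_top
      (ENNReal.add_lt_top.2 ⟨ENNReal.one_lt_top, hN⟩) ENNReal.ofReal_lt_top)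
  refine ⟨⟨hgm.mul hφm, lt_of_le_of_lt h1 hfin⟩, ?_⟩
  have h7 := (enorm_integral_le_lintegral_enorm (fun x => gf a al (z x) * φ x)).trans h1
  have h8 := ENNReal.toReal_mono hfin.ne h7
  rw [toReal_enorm, Real.norm_eq_abs] at h8
  refine h8.trans (le_of_eq ?_)
  rw [ENNReal.toReal_mul, ENNReal.toReal_mul, ENNReal.toReal_ofReal ha.le,
    ENNReal.toReal_ofReal hK, ENNReal.toReal_add ENNReal.one_ne_top hN.ne, ENNReal.toReal_one]
  ring

end abs

theorem trw (hLpe : LpeStmt) : TrwStmt := by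
  intro d Ω ι b e om a al z1 z2 hd hΩ hι hsp ha hal hdal hsol ψ hψ t ht
  have := finMu hΩ
  obtain ⟨P, hP⟩ := grad_mem ψ hψ
  have hιP := hι ψ hψ P hP
  obtain ⟨C, hC, hCb⟩ := hLpe d Ω ι (al + 2) hd hΩ hι (by linarith) (by nlinarith)
  obtain ⟨N, hN⟩ : ∃ N : ℝ → ℝ≥0∞, N = fun s => ∫⁻ x, ENNReal.ofReal (|z2 s x| ^ (al + 2)) ∂(mu Ω) :=
    ⟨_, rfl⟩
  obtain ⟨ν, hν⟩ : ∃ ν : Measure ℝ, ν = volume.restrict (Ioc 0 t) := ⟨_, rfl⟩
  have hpos : ∀ᵐ s ∂ν, 0 ≤ s := by
    rw [hν]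
    exact ae_restrict_of_forall_mem measurableSet_Ioc fun s hs => hs.1.le
  have hNm : AEMeasurable N ν := by
    refine ⟨fun s => ∫⁻ x, ENNReal.ofReal (|z2 (max s 0) x| ^ (al + 2)) ∂(mu Ω), ?_, ?_⟩
    · apply measurable_of_Iic
      intro c
      have hc : Continuous fun s : ℝ => z2 (max s 0) :=
        hsol.c2.comp_continuous (continuous_id.max continuous_const) fun s => mem_Ici.2 (le_max_right _ _)
      exact ((lsc (μ := mu Ω) (al + 2) (by linarith) c).preimage hc).measurableSet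
    · filter_upwards [hpos] with s hs
      rw [hN, max_eq_left hs]
  have hNi : ∫⁻ s, N s ∂ν ≠ ⊤ := by
    have h1 := hsol.en 0 t le_rfl ht
    have h2 : ENNReal.ofReal (2 * a) * ∫⁻ r in Icc 0 t, N r ≤ ENNReal.ofReal (enr (mu Ω) z1 z2 0) := by
      rw [hN]
      exact le_add_self.trans h1
    have h3 : ∫⁻ r in Icc 0 t, N r ≠ ⊤ := by
      intro h
      rw [h, ENNReal.mul_top (by simpa using ha)] at h2
      exact absurd (top_le_iff.1 h2) ENNReal.ofReal_ne_top
    rw [hν]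
    exact ne_top_of_le_ne_top h3 (lintegral_mono_set Ioc_subset_Icc_self)
  have hNf : ∀ᵐ s ∂ν, N s < ⊤ := ae_lt_top' hNm hNi
  have hMi : Integrable (fun s => (N s).toReal) ν := integrable_toReal_of_lintegral_ne_top hNm hNi
  have hνf : IsFiniteMeasure ν := by
    rw [hν]
    infer_instance
  -- the functionals
  have hpb : ∀ s, N s < ⊤ → ∀ Q : VV Ω, Integrable (fun x => gf a al (z2 s x) * ι Q x) (mu Ω) ∧
      |∫ x, gf a al (z2 s x) * ι Q x ∂(mu Ω)| ≤ a * (1 + (N s).toReal) * (C * ‖Q‖) := by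
    intro s hs Q
    rw [hN] at hs ⊢
    exact pair_bound ha hal (fun x => z2 s x) (fun x => ι Q x) (Lp.aestronglyMeasurable _)
      (Lp.aestronglyMeasurable _) (C * ‖Q‖) (by positivity) (hCb Q) hs
  have hext : ∀ x y : Lp ℝ 2 (mu Ω), (∀ k, ⟪b k, x⟫_ℝ = ⟪b k, y⟫_ℝ) → x = y := by
    intro x y h
    apply b.repr.injective
    ext k
    rw [HilbertBasis.repr_apply_apply, HilbertBasis.repr_apply_apply, h k]
  have hιe : ∀ k, ι (e k) = (om k)⁻¹ • b k := by
    intro k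
    refine hext _ _ fun j => ?_
    rw [hsp.rel, real_inner_smul_right, orthonormal_iff_ite.1 e.orthonormal j k,
      orthonormal_iff_ite.1 b.orthonormal j k]
    split_ifs with h
    · rw [h]
    · simp
  obtain ⟨Pn, hPn⟩ : ∃ Pn : ℕ → VV Ω, Pn = fun n => ∑ k ∈ Finset.range n, ⟪e k, P⟫_ℝ • e k :=
    ⟨_, rfl⟩
  have hPlim : Tendsto Pn atTop (𝓝 P) := by
    have h1 := (e.hasSum_repr P).tendsto_sum_nat
    rw [hPn]
    refine h1.congr fun n => Finset.sum_congr rfl fun k _ => ?_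
    rw [HilbertBasis.repr_apply_apply]
  obtain ⟨B, hB⟩ := hPlim.norm.bddAbove_range
  have hB' : ∀ n, ‖Pn n‖ ≤ B := fun n => hB ⟨n, rfl⟩
  obtain ⟨Fn, hFn⟩ : ∃ Fn : ℕ → ℝ → ℝ, Fn = fun n s => ∑ k ∈ Finset.range n,
    ((om k)⁻¹ * ⟪e k, P⟫_ℝ) * ∫ x, gf a al (z2 s x) * b k x ∂(mu Ω) := ⟨_, rfl⟩
  have hFn1 : ∀ n s, N s < ⊤ → Fn n s = ∫ x, gf a al (z2 s x) * ι (Pn n) x ∂(mu Ω) := by
    intro n s hs
    let L : VV Ω →ₗ[ℝ] ℝ :=
      { toFun := fun Q => ∫ x, gf a al (z2 s x) * ι Q x ∂(mu Ω)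
        map_add' := by
          intro Q Q'
          rw [← integral_add (hpb s hs Q).1 (hpb s hs Q').1]
          refine integral_congr_ae ?_
          rw [map_add]
          filter_upwards [Lp.coeFn_add (ι Q) (ι Q')] with x hx
          rw [hx, Pi.add_apply]
          ring
        map_smul' := by
          intro c Q
          rw [RingHom.id_apply, smul_eq_mul, ← integral_const_mul]
          refine integral_congr_ae ?_
          rw [map_smul]
          filter_upwards [Lp.coeFn_smul c (ι Q)] with x hx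
          rw [hx, Pi.smul_apply, smul_eq_mul]
          ring }
    have hL : ∀ Q, L Q = ∫ x, gf a al (z2 s x) * ι Q x ∂(mu Ω) := fun Q => rfl
    rw [← hL, hPn, map_sum, hFn]
    refine Finset.sum_congr rfl fun k _ => ?_
    rw [map_smul, smul_eq_mul, hL, hιe]
    have h1 : ∫ x, gf a al (z2 s x) * ((om k)⁻¹ • b k : Lp ℝ 2 (mu Ω)) x ∂(mu Ω) =
        (om k)⁻¹ * ∫ x, gf a al (z2 s x) * b k x ∂(mu Ω) := by
      rw [← integral_const_mul]
      refine integral_congr_ae ?_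
      filter_upwards [Lp.coeFn_smul (om k)⁻¹ (b k)] with x hx
      rw [hx, Pi.smul_apply, smul_eq_mul]
      ring
    rw [h1]
    ring
  obtain ⟨F, hF⟩ : ∃ F : ℝ → ℝ, F = fun s => ∫ x, gf a al (z2 s x) * ψ x ∂(mu Ω) := ⟨_, rfl⟩
  have hF1 : ∀ s, F s = ∫ x, gf a al (z2 s x) * ι P x ∂(mu Ω) := by
    intro s
    rw [hF]
    refine integral_congr_ae ?_
    filter_upwards [hιP] with x hx
    rw [hx]
  have hdiff : ∀ n s, N s < ⊤ → |Fn n s - F s| ≤ a * (1 + (N s).toReal) * (C * ‖Pn n - P‖) := by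
    intro n s hs
    rw [hFn1 n s hs, hF1 s, ← integral_sub (hpb s hs _).1 (hpb s hs _).1]
    refine le_of_eq_of_le ?_ (hpb s hs (Pn n - P)).2
    congr 1
    refine integral_congr_ae ?_
    rw [map_sub]
    filter_upwards [Lp.coeFn_sub (ι (Pn n)) (ι P)] with x hx
    rw [hx, Pi.sub_apply]
    ring
  have hFlim : ∀ᵐ s ∂ν, Tendsto (fun n => Fn n s) atTop (𝓝 (F s)) := by
    filter_upwards [hNf] with s hs
    rw [tendsto_iff_norm_sub_tendsto_zero]
    have h1 : Tendsto (fun n => a * (1 + (N s).toReal) * (C * ‖Pn n - P‖)) atTop (𝓝 0) := by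
      have h2 := tendsto_iff_norm_sub_tendsto_zero.1 hPlim
      have h3 := (h2.const_mul C).const_mul (a * (1 + (N s).toReal))
      simpa using h3
    exact squeeze_zero (fun n => norm_nonneg _) (fun n => hdiff n s hs) h1
  have hgi : ∀ k, Integrable (fun s => ∫ x, gf a al (z2 s x) * b k x ∂(mu Ω)) ν := by
    intro k
    have h1 := hsol.gint k t ht
    rw [intervalIntegrable_iff_integrableOn_Ioc_of_le ht] at h1
    rw [hν]
    exact h1
  have hFni : ∀ n, Integrable (Fn n) ν := by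
    intro n
    rw [hFn]
    exact integrable_finsetSum _ fun k _ => (hgi k).const_mul _
  have hFm : AEStronglyMeasurable F ν :=
    aestronglyMeasurable_of_tendsto_ae atTop (fun n => (hFni n).aestronglyMeasurable) hFlim
  have hbi : Integrable (fun s => a * (1 + (N s).toReal) * (C * B)) ν :=
    (((integrable_const 1).add hMi).const_mul a).mul_const _
  have hFi : Integrable F ν := by
    refine Integrable.mono' ((((integrable_const 1).add hMi).const_mul a).mul_const (C * ‖P‖)) hFm ?_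
    filter_upwards [hNf] with s hs
    rw [hF1 s, Real.norm_eq_abs]
    exact (hpb s hs P).2
  have hFlim2 : Tendsto (fun n => ∫ s, Fn n s ∂ν) atTop (𝓝 (∫ s, F s ∂ν)) := by
    refine tendsto_integral_of_dominated_convergence _ (fun n => (hFni n).aestronglyMeasurable) hbi
      (fun n => ?_) hFlim
    filter_upwards [hNf] with s hs
    rw [hFn1 n s hs, Real.norm_eq_abs]
    refine (hpb s hs (Pn n)).2.trans ?_
    have := hB' n
    gcongr
  have hII : IntervalIntegrable F volume 0 t := by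
    rw [intervalIntegrable_iff_integrableOn_Ioc_of_le ht]
    rw [hν] at hFi
    exact hFi
  refine ⟨by rw [hF] at hII; exact hII, ?_⟩
  -- the linear part
  obtain ⟨G, hG⟩ : ∃ G : ℝ → VV Ω, G = fun s => UU b e (z1 s) := ⟨_, rfl⟩
  have hGc : ∀ k s, ⟪e k, G s⟫_ℝ = ⟪b k, z1 s⟫_ℝ := by
    intro k s
    rw [hG, ← HilbertBasis.repr_apply_apply, ← HilbertBasis.repr_apply_apply]
    change e.repr (e.repr.symm (b.repr (z1 s))) k = _
    rw [LinearIsometryEquiv.apply_symm_apply]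
  have hGcont : ContinuousOn G (Ici 0) := by
    rw [hG]
    exact (UU b e).continuous.comp_continuousOn hsol.c1
  have hIcc : ∀ s ∈ Icc (0:ℝ) t, s ∈ Ici (0:ℝ) := fun s hs => hs.1
  have hint : ∀ f : ℝ → ℝ, ContinuousOn f (Ici 0) → Integrable f ν := by
    intro f hf
    rw [hν]
    exact ((hf.mono hIcc).integrableOn_Icc).mono_set Ioc_subset_Icc_self
  have hGP : ∀ Q : VV Ω, Integrable (fun s => ⟪Q, G s⟫_ℝ) ν := fun Q =>
    hint _ (continuousOn_const.inner hGcont)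
  have hPnG : ∀ n s, ⟪Pn n, G s⟫_ℝ = ∑ k ∈ Finset.range n, ⟪e k, P⟫_ℝ * ⟪b k, z1 s⟫_ℝ := by
    intro n s
    rw [hPn, sum_inner]
    refine Finset.sum_congr rfl fun k _ => ?_
    rw [← hGc]
    exact real_inner_smul_left (e k) (G s) ⟪e k, P⟫_ℝ
  have hGlim : Tendsto (fun n => ∫ s, ⟪Pn n, G s⟫_ℝ ∂ν) atTop (𝓝 (∫ s, ⟪P, G s⟫_ℝ ∂ν)) := by
    refine tendsto_integral_of_dominated_convergence (fun s => B * ‖G s‖)
      (fun n => (hGP _).aestronglyMeasurable)
      ((hint _ hGcont.norm).const_mul B) (fun n => ?_) ?_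
    · refine Eventually.of_forall fun s => ?_
      refine (norm_inner_le_norm _ _).trans ?_
      exact mul_le_mul_of_nonneg_right (hB' n) (norm_nonneg _)
    · exact Eventually.of_forall fun s => hPlim.inner tendsto_const_nhds
  have hcoef : ∀ s : ℝ, Tendsto (fun n => ∑ k ∈ Finset.range n,
      ((om k)⁻¹ * ⟪e k, P⟫_ℝ) * ⟪b k, z2 s⟫_ℝ) atTop (𝓝 (∫ x, z2 s x * ψ x ∂(mu Ω))) := by
    intro s
    have h1 := (b.hasSum_inner_mul_inner (z2 s) (ι P)).tendsto_sum_nat
    have h2 : ⟪z2 s, ι P⟫_ℝ = ∫ x, z2 s x * ψ x ∂(mu Ω) := by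
      rw [L2.inner_def]
      refine integral_congr_ae ?_
      filter_upwards [hιP] with x hx
      rw [hx]
      simp [mul_comm]
    rw [← h2]
    refine h1.congr fun n => Finset.sum_congr rfl fun k _ => ?_
    rw [hsp.rel, real_inner_comm (b k) (z2 s)]
    ring
  have hn : ∀ n, ∑ k ∈ Finset.range n, ((om k)⁻¹ * ⟪e k, P⟫_ℝ) * ⟪b k, z2 t⟫_ℝ =
      ∑ k ∈ Finset.range n, ((om k)⁻¹ * ⟪e k, P⟫_ℝ) * ⟪b k, z2 0⟫_ℝ -
        (∫ s, ⟪Pn n, G s⟫_ℝ ∂ν + ∫ s, Fn n s ∂ν) := by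
    intro n
    have h1 : ∀ k, ⟪b k, z2 t⟫_ℝ = ⟪b k, z2 0⟫_ℝ -
        (∫ s, om k * ⟪b k, z1 s⟫_ℝ ∂ν + ∫ s, (∫ x, gf a al (z2 s x) * b k x ∂(mu Ω)) ∂ν) := by
      intro k
      rw [hsol.m2 k t ht, intervalIntegral.integral_of_le ht, ← hν, integral_add _ (hgi k)]
      exact (hint _ (continuousOn_const.inner hsol.c1)).const_mul _
    have h2 : ∫ s, ⟪Pn n, G s⟫_ℝ ∂ν = ∑ k ∈ Finset.range n, ((om k)⁻¹ * ⟪e k, P⟫_ℝ) *
        ∫ s, om k * ⟪b k, z1 s⟫_ℝ ∂ν := by
      simp only [hPnG]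
      rw [integral_finsetSum _ fun k _ =>
        (hint _ (continuousOn_const.inner hsol.c1)).const_mul _]
      refine Finset.sum_congr rfl fun k _ => ?_
      rw [integral_const_mul, integral_const_mul]
      have := (hsp.pos k).ne'
      field_simp
    have h3 : ∫ s, Fn n s ∂ν = ∑ k ∈ Finset.range n, ((om k)⁻¹ * ⟪e k, P⟫_ℝ) *
        ∫ s, (∫ x, gf a al (z2 s x) * b k x ∂(mu Ω)) ∂ν := by
      rw [hFn, integral_finsetSum _ fun k _ => (hgi k).const_mul _]
      refine Finset.sum_congr rfl fun k _ => ?_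
      rw [integral_const_mul]
    rw [h2, h3, ← Finset.sum_add_distrib, ← Finset.sum_sub_distrib]
    refine Finset.sum_congr rfl fun k _ => ?_
    rw [h1 k]
    ring
  have hlimR := (hcoef 0).sub (hGlim.add hFlim2)
  have hlimL := hcoef t
  have heq := tendsto_nhds_unique (hlimL.congr hn) hlimR
  rw [heq, intervalIntegral.integral_of_le ht, ← hν]
  congr 1
  have h4 : ∀ s, ∫ x, ⟪((UU b e (z1 s) : VV Ω) : Lp (En d) 2 (mu Ω)) x, gradient ψ x⟫_ℝ ∂(mu Ω) =
      ⟪P, G s⟫_ℝ := by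
    intro s
    rw [real_inner_comm, hG, Submodule.coe_inner, L2.inner_def]
    refine integral_congr_ae ?_
    filter_upwards [hP] with x hx
    rw [hx]
  have h5 : ∀ s, ∫ x, gf a al (z2 s x) * ψ x ∂(mu Ω) = F s := fun s => by rw [hF]
  simp only [h4, h5]
  rw [integral_add (hGP P) hFi]

end Pool.Agent.BEL.H70
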