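import Pool.Agent.BEL.StmtsP

set_option autoImplicit false

namespace Pool.Agent.BEL.H70

open Set Filter Topology MeasureTheory
open scoped InnerProductSpace ENNReal
open Pool.Agent.BE01

variable {d : ℕ}

/-- `s / sqrt (s^2 + δ^2)`. -/
noncomputable def Ph (δ s : ℝ) : ℝ := s / √(s ^ 2 + δ ^ 2)

lemma sq_pos' {δ : ℝ} (hδ : 0 < δ) (s : ℝ) : 0 < s ^ 2 + δ ^ 2 := by positivity

lemma Ph_smooth {δ : ℝ} (hδ : 0 < δ) : ContDiff ℝ ((⊤ : ℕ∞) : WithTop ℕ∞) (Ph δ) := by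
  unfold Ph
  refine ContDiff.div contDiff_id ?_ fun s => (Real.sqrt_pos.2 (sq_pos' hδ s)).ne'
  exact ContDiff.sqrt ((contDiff_id.pow 2).add contDiff_const) fun s => (sq_pos' hδ s).ne'

lemma Ph_deriv {δ : ℝ} (hδ : 0 < δ) (s : ℝ) :
    deriv (Ph δ) s = δ ^ 2 / ((s ^ 2 + δ ^ 2) * √(s ^ 2 + δ ^ 2)) := by
  have h0 := sq_pos' hδ s
  have h1 : HasDerivAt (fun s : ℝ => s ^ 2 + δ ^ 2) (2 * s) s := by
    have := (hasDerivAt_pow 2 s).add_const (δ ^ 2)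
    simpa using this
  have h2 := h1.sqrt h0.ne'
  have hs : 0 < √(s ^ 2 + δ ^ 2) := Real.sqrt_pos.2 h0
  have h3 := (hasDerivAt_id s).div h2 hs.ne'
  have h4 : deriv (Ph δ) s = _ := h3.deriv
  rw [h4]
  have h5 : √(s ^ 2 + δ ^ 2) ^ 2 = s ^ 2 + δ ^ 2 := Real.sq_sqrt h0.le
  simp only [id]
  set r := √(s ^ 2 + δ ^ 2)
  rw [← h5]
  have h6 : δ ^ 2 = r ^ 2 - s ^ 2 := by rw [h5]; ring
  rw [h6]
  field_simp

lemma Ph_deriv_nonneg {δ : ℝ} (hδ : 0 < δ) (s : ℝ) : 0 ≤ deriv (Ph δ) s := by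
  rw [Ph_deriv hδ]
  have := sq_pos' hδ s
  positivity

lemma Ph_deriv_le {δ : ℝ} (hδ : 0 < δ) (s : ℝ) : |deriv (Ph δ) s| ≤ 1 / δ := by
  rw [abs_of_nonneg (Ph_deriv_nonneg hδ s), Ph_deriv hδ]
  have h0 := sq_pos' hδ s
  have h1 : δ ^ 2 ≤ s ^ 2 + δ ^ 2 := by nlinarith [sq_nonneg s]
  have h2 : δ ≤ √(s ^ 2 + δ ^ 2) := Real.le_sqrt_of_sq_le h1
  rw [div_le_div_iff₀ (by positivity) hδ, one_mul]
  exact mul_le_mul h1 h2 hδ.le h0.le

lemma Ph_abs {δ : ℝ} (hδ : 0 < δ) (s : ℝ) : |Ph δ s| ≤ 1 := by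
  have h0 := sq_pos' hδ s
  have hs : 0 < √(s ^ 2 + δ ^ 2) := Real.sqrt_pos.2 h0
  unfold Ph
  rw [abs_div, abs_of_pos hs, div_le_one hs]
  exact Real.abs_le_sqrt (by nlinarith [sq_nonneg δ])

lemma Ph_low {δ : ℝ} (hδ : 0 < δ) (s : ℝ) : |s| - δ ≤ s * Ph δ s := by
  have h0 := sq_pos' hδ s
  have hs : 0 < √(s ^ 2 + δ ^ 2) := Real.sqrt_pos.2 h0
  have h1 : √(s ^ 2 + δ ^ 2) ≤ |s| + δ := by
    rw [Real.sqrt_le_left (by positivity)]
    nlinarith [sq_abs s, abs_nonneg s]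
  have h2 : |s| ≤ √(s ^ 2 + δ ^ 2) := Real.abs_le_sqrt (by nlinarith [sq_nonneg δ])
  unfold Ph
  rw [mul_div_assoc', le_div_iff₀ hs, ← sq]
  have h4 : s ^ 2 = |s| ^ 2 := (sq_abs s).symm
  have h5 := abs_nonneg s
  set r := √(s ^ 2 + δ ^ 2)
  rw [h4]
  rcases le_total |s| δ with h | h
  · nlinarith
  · nlinarith [mul_le_mul_of_nonneg_left h1 (sub_nonneg.2 h)]

theorem finMu {Ω : Set (En d)} (hΩ : Dom Ω) : IsFiniteMeasure (mu Ω) := by
  constructor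
  unfold mu
  rw [Measure.restrict_apply_univ]
  exact hΩ.2.1.measure_lt_top

theorem lon (hCh2 : Ch2Stmt) : LonStmt := by
  intro d Ω ι hΩ hι f G lam hlam hG
  have := finMu hΩ
  have key : ∀ δ : ℝ, 0 < δ → ∫ x, |ι G x| ∂(mu Ω) ≤ ∫ x, |f x| ∂(mu Ω) + δ * (mu Ω).real univ := by
    intro δ hδ
    obtain ⟨G', h1, h2⟩ := hCh2 d Ω ι (Ph δ) (1 / δ) hΩ hι (Ph_smooth hδ) (by simp [Ph])
      (Ph_deriv_le hδ) G
    have h3 := hG G'
    have h4 : 0 ≤ ⟪G, G'⟫_ℝ := by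
      rw [Submodule.coe_inner, L2.inner_def]
      refine integral_nonneg_of_ae ?_
      filter_upwards [h2] with x hx
      rw [hx, inner_smul_right]
      exact mul_nonneg (Ph_deriv_nonneg hδ _) real_inner_self_nonneg
    have h5 : ⟪ι G, ι G'⟫_ℝ = ∫ x, ι G x * Ph δ (ι G x) ∂(mu Ω) := by
      rw [L2.inner_def]
      refine integral_congr_ae ?_
      filter_upwards [h1] with x hx
      rw [hx]
      simp [mul_comm]
    have h6 : ⟪f, ι G'⟫_ℝ = ∫ x, f x * Ph δ (ι G x) ∂(mu Ω) := by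
      rw [L2.inner_def]
      refine integral_congr_ae ?_
      filter_upwards [h1] with x hx
      rw [hx]
      simp [mul_comm]
    have hfi : Integrable (fun x => f x) (mu Ω) := (Lp.memLp f).integrable one_le_two
    have hgi : Integrable (fun x => ι G x) (mu Ω) := (Lp.memLp (ι G)).integrable one_le_two
    have hPm : AEStronglyMeasurable (fun x => Ph δ (ι G x)) (mu Ω) :=
      (Ph_smooth hδ).continuous.comp_aestronglyMeasurable hgi.aestronglyMeasurable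
    have hbd : ∀ h : En d → ℝ, Integrable h (mu Ω) →
        Integrable (fun x => h x * Ph δ (ι G x)) (mu Ω) := fun h hh =>
      hh.mul_bdd hPm (Eventually.of_forall fun x => by
        rw [Real.norm_eq_abs]; exact Ph_abs hδ _)
    have h7 : ∫ x, f x * Ph δ (ι G x) ∂(mu Ω) ≤ ∫ x, |f x| ∂(mu Ω) := by
      refine integral_mono (hbd _ hfi) hfi.abs fun x => ?_
      calc f x * Ph δ (ι G x) ≤ |f x * Ph δ (ι G x)| := le_abs_self _
        _ = |f x| * |Ph δ (ι G x)| := abs_mul _ _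
        _ ≤ |f x| * 1 := mul_le_mul_of_nonneg_left (Ph_abs hδ _) (abs_nonneg _)
        _ = _ := mul_one _
    have h8 : ∫ x, |ι G x| - δ ∂(mu Ω) ≤ ∫ x, ι G x * Ph δ (ι G x) ∂(mu Ω) :=
      integral_mono (hgi.abs.sub (integrable_const δ)) (hbd _ hgi) fun x => Ph_low hδ _
    rw [integral_sub hgi.abs (integrable_const δ), integral_const, smul_eq_mul] at h8
    have h9 : 0 ≤ lam * ⟪G, G'⟫_ℝ := mul_nonneg hlam h4
    rw [h5, h6] at h3
    linarith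
  refine le_of_forall_pos_le_add fun ε hε => ?_
  have hm : 0 ≤ (mu Ω).real univ := measureReal_nonneg
  have := key (ε / ((mu Ω).real univ + 1)) (by positivity)
  refine this.trans ?_
  gcongr
  rw [div_mul_eq_mul_div, div_le_iff₀ (by positivity)]
  nlinarith

end Pool.Agent.BEL.H70
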